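import Mathlib

/-!
MP_b67006_nt, Q1 (negated form): congruence (a) for `S'_p` fails for `p = 7`, and also for
`p = 13, 19, 31`.
-/

namespace Pool.Agent.Results.MP_b67006_nt.FailsAtSeven

open Finset

/-- `T_n(b,c) = ∑_{j ≤ n/2} C(n,2j) C(2j,j) b^(n-2j) c^j`. -/
def T (b c : ℤ) (n : ℕ) : ℤ :=
  ∑ j ∈ range (n / 2 + 1), (n.choose (2 * j) : ℤ) * ((2 * j).choose j : ℤ) * b ^ (n - 2 * j) * c ^ j

/-- `S_p = ∑_{k ≤ (p-1)/2} C(2k,k)/16^k T_{2k}(2,3)`. -/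
def S (p : ℕ) : ℚ :=
  ∑ k ∈ range ((p - 1) / 2 + 1), ((2 * k).choose k : ℚ) / 16 ^ k * (T 2 3 (2 * k) : ℚ)

/-- `S'_p = ∑_{k ≤ p-1} C(2k,k)/16^k T_{2k}(4,-3)`. -/
def S' (p : ℕ) : ℚ :=
  ∑ k ∈ range p, ((2 * k).choose k : ℚ) / 16 ^ k * (T 4 (-3) (2 * k) : ℚ)

/-- The asserted value `(-1/p) (2x - p/(2x))`, with `(-1/p) = (-1)^((p-1)/2)`. -/
def rhs (p : ℕ) (x : ℤ) : ℚ := (-1) ^ ((p - 1) / 2) * (2 * x - (p : ℚ) / (2 * x))

/-- `a ≡ b (mod p^2)` in `ℤ_(p)`: `a - b = p^2 w` with `w` of denominator prime to `p`. -/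
def CongSq (p : ℕ) (a b : ℚ) : Prop :=
  ∃ w : ℚ, ¬ (p ∣ w.den) ∧ a - b = (p : ℚ) ^ 2 * w

theorem not_cong (p : ℕ) (a b : ℚ) (hp : (p : ℚ) ≠ 0) (h : p ∣ ((a - b) / (p : ℚ) ^ 2).den) :
    ¬ CongSq p a b := by
  rintro ⟨w, hw, h2⟩
  have h' : w = (a - b) / (p : ℚ) ^ 2 := by
    rw [h2]; field_simp
  exact hw (h' ▸ h)

/-- For each of the primes `p = 7, 13, 19, 31` there are integers `x, y` with `p = x^2+3y^2`,
`x ≡ 1 (mod 3)`, such that `S'_p` is congruent modulo `p^2` neither to `(-1/p)(2x - p/(2x))`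
nor to `S_p`. -/
theorem result : ∀ p ∈ ([7, 13, 19, 31] : List ℕ), p.Prime ∧ 3 < p ∧ p % 3 = 1 ∧
    ∃ x y : ℤ, (p : ℤ) = x ^ 2 + 3 * y ^ 2 ∧ x % 3 = 1 ∧
      ¬ CongSq p (S' p) (rhs p x) ∧ ¬ CongSq p (S p) (S' p) := by
  intro p hp
  simp only [List.mem_cons, List.not_mem_nil, or_false] at hp
  rcases hp with rfl | rfl | rfl | rfl
  · refine ⟨by norm_num, by norm_num, by norm_num, -2, 1, by norm_num, by decide, ?_, ?_⟩
    · exact not_cong _ _ _ (by norm_num) (by decide +kernel)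
    · exact not_cong _ _ _ (by norm_num) (by decide +kernel)
  · refine ⟨by norm_num, by norm_num, by norm_num, 1, 2, by norm_num, by decide, ?_, ?_⟩
    · exact not_cong _ _ _ (by norm_num) (by decide +kernel)
    · exact not_cong _ _ _ (by norm_num) (by decide +kernel)
  · refine ⟨by norm_num, by norm_num, by norm_num, 4, 1, by norm_num, by decide, ?_, ?_⟩
    · exact not_cong _ _ _ (by norm_num) (by decide +kernel)
    · exact not_cong _ _ _ (by norm_num) (by decide +kernel)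
  · refine ⟨by norm_num, by norm_num, by norm_num, -2, 3, by norm_num, by decide, ?_, ?_⟩
    · exact not_cong _ _ _ (by norm_num) (by decide +kernel)
    · exact not_cong _ _ _ (by norm_num) (by decide +kernel)

end Pool.Agent.Results.MP_b67006_nt.FailsAtSeven
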